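import Pool.Agent.Lib.MP_8613e3_co_hex.H02

/-!
# Drawings of complete graphs with a twisted subgraph

`F` is a set of edges of `K_n` (a graph on the vertices). For every vertex `a` the function `σ a` permutes the
neighbours of `a` in `F`. If for every edge `ab` of `F` the edges `a (σ a b)` and `b (σ b a)` cross in a point `P a b`
and the points `P a b` are in the right order on the edges of `F`, then the edge `ab` can be replaced by the piece of
`a (σ a b)` from `a` to `P a b` and the piece of `b (σ b a)` from `P a b` to `b`, for all edges of `F` at the same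
time: all the crossings `P a b` are smoothed.
-/

set_option autoImplicit false

namespace Pool.HexDraw

open Set

variable {S : Type} [TopologicalSpace S] {n : ℕ}

/-- `F` is a twisted subgraph of the drawing `D`: for every vertex `a` the map `b ↦ σ a b` is injective on the
neighbours of `a` in `F` and has neighbours of `a` in `F` as values; for every edge `ab` of `F` the pairs
`{a, σ a b}` and `{b, σ b a}` are disjoint and the two edges of the drawing cross in `P a b = P b a`; and for the
edges `ab`, `ac`, `cd` of `F` with `σ a b = c` and `σ c d = a` the point `P a b` comes before `P c d` on the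
edge `ac`, traversed from `a`. -/
def Drawing.Twisted (D : Drawing S n) (F : SimpleGraph (Fin n)) : Prop :=
  ∃ (σ : Fin n → Fin n → Fin n) (P : Fin n → Fin n → S),
    (∀ a b, F.Adj a b → F.Adj a (σ a b)) ∧
    (∀ a b c, F.Adj a b → F.Adj a c → σ a b = σ a c → b = c) ∧
    (∀ a b, P a b = P b a) ∧
    (∀ a b, F.Adj a b → Dj a (σ a b) b (σ b a) ∧ P a b ∈ D.edge a (σ a b) ∧ P a b ∈ D.edge b (σ b a)) ∧
    (∀ a b c d, F.Adj a b → F.Adj c d → σ a b = c → σ c d = a →
      Before (D.edge a c) (D.pt a) (P a b) (P c d))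

open Classical in
theorem tw_state [T2Space S] {D : Drawing S n} (E : EdgeNet D) {F : SimpleGraph (Fin n)}
    (hh : D.Twisted F) :
    ∃ ω : State D.crossings, E.toNet.K ω ∧ (strt ω).ncard + F.edgeSet.ncard ≤ D.cr := by
  obtain ⟨σ, P, hσ, hinj, hsym, hP, hB⟩ := hh
  have hne : ∀ a b, F.Adj a b → a ≠ σ a b := fun a b h => (hσ a b h).ne
  have hcr : ∀ a b, F.Adj a b → P a b ∈ D.crossings := fun a b h =>
    ⟨a, σ a b, b, σ b a, hne a b h, hne b a h.symm, (hP a b h).1, (hP a b h).2.1, (hP a b h).2.2⟩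
  -- the edges through `P a b`
  have hthree : ∀ a b, F.Adj a b → ∀ i j, i ≠ j → P a b ∈ D.edge i j →
      (i = a ∧ j = σ a b) ∨ (i = σ a b ∧ j = a) ∨ (i = b ∧ j = σ b a) ∨ (i = σ b a ∧ j = b) := by
    intro a b h i j hij hm
    exact h01_three D (hne a b h) (hne b a h.symm) (hP a b h).1 hij (hP a b h).2.1 (hP a b h).2.2 hm
  -- the points `P u v` on an edge `a c` of `F`
  have hon : ∀ a c, F.Adj a c → ∀ u v, F.Adj u v → P u v ∈ D.edge a c →
      ∃ u' v', F.Adj u' v' ∧ P u' v' = P u v ∧ ((u', v') = (u, v) ∨ (u', v') = (v, u)) ∧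
        ((u' = a ∧ σ u' v' = c) ∨ (u' = c ∧ σ u' v' = a)) := by
    intro a c hac u v huv hm
    rcases hthree u v huv a c hac.ne hm with ⟨e1, e2⟩ | ⟨e1, e2⟩ | ⟨e1, e2⟩ | ⟨e1, e2⟩
    · exact ⟨u, v, huv, rfl, Or.inl rfl, Or.inl ⟨e1.symm, e2.symm⟩⟩
    · exact ⟨u, v, huv, rfl, Or.inl rfl, Or.inr ⟨e2.symm, e1.symm⟩⟩
    · exact ⟨v, u, huv.symm, hsym v u, Or.inr rfl, Or.inl ⟨e1.symm, e2.symm⟩⟩
    · exact ⟨v, u, huv.symm, hsym v u, Or.inr rfl, Or.inr ⟨e2.symm, e1.symm⟩⟩
  -- `P` is injective on the edges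
  have hPinj : ∀ a b, F.Adj a b → ∀ u v, F.Adj u v → P u v = P a b → (u, v) = (a, b) ∨ (u, v) = (b, a) := by
    intro a b hab u v huv he
    have hm : P u v ∈ D.edge a (σ a b) := by rw [he]; exact (hP a b hab).2.1
    obtain ⟨u', v', h1, h2, h3, h4⟩ := hon a (σ a b) (hσ a b hab) u v huv hm
    rcases h4 with ⟨e1, e2⟩ | ⟨e1, e2⟩
    · subst e1
      have := hinj u' v' b h1 hab e2
      subst this
      rcases h3 with h3 | h3
      · exact Or.inl h3.symm
      · right
        have := congrArg Prod.swap h3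
        simpa using this.symm
    · exfalso
      have hb := hB a b u' v' hab h1 e1.symm e2
      rw [h2, he] at hb
      exact hb.ne rfl
  -- the walks
  have W : ∀ a b, ∀ h : F.Adj a b, ∃ (c : CD D.crossings) (l : List (CD D.crossings)),
      c.1 = ⟨P a b, hcr a b h⟩ ∧ E.dir c = ⟨(σ a b, a), (hne a b h).symm⟩ ∧
      E.toNet.Walk (st0 _) (E.flip (Sum.inl ⟨(a, σ a b), hne a b h⟩)) l (Sum.inr c) ∧
      ∀ f ∈ l, ∀ u v, F.Adj u v → f.1.1 ≠ P u v := by
    intro a b hab
    obtain ⟨c, l, h1, h2, h3, h4⟩ := E.walk_cross ⟨(a, σ a b), hne a b hab⟩ ⟨P a b, hcr a b hab⟩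
      (hP a b hab).2.1
    refine ⟨c, l, h1, h2, h3, ?_⟩
    intro f hf u v huv hfm
    obtain ⟨g1, g2⟩ := h4 f hf
    rw [hfm] at g1 g2
    change P u v ∈ D.edge a (σ a b) at g1
    change Before (D.edge a (σ a b)) (D.pt a) (P u v) (P a b) at g2
    obtain ⟨u', v', k1, k2, -, k4⟩ := hon a (σ a b) (hσ a b hab) u v huv g1
    rw [← k2] at g2
    rcases k4 with ⟨e1, e2⟩ | ⟨e1, e2⟩
    · subst e1
      have := hinj u' v' b k1 hab e2
      subst this
      exact g2.ne rfl
    · have hb := hB a b u' v' hab k1 e1.symm e2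
      rw [e1] at hb
      rw [e1] at g2
      exact hb.asymm g2
  choose c l hc1 hc2 hc3 hc4 using W
  have hstrand : ∀ a b, ∀ h : F.Adj a b, (c b a h.symm).2.1 = !(c a b h).2.1 := by
    intro a b h
    obtain ⟨d1, d2, d3, d4⟩ := (hP a b h).1
    apply h01_strand E
    · rw [hc1, hc1]
      exact Subtype.ext (hsym b a)
    · rw [hc2, hc2]
      intro e
      have := congrArg (fun z : VD n => z.1.2) e
      exact d1 this.symm
    · rw [hc2, hc2]
      intro e
      have := congrArg (fun z : VD n => z.1.2) e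
      exact d3 this.symm
  -- the state
  set ω : State D.crossings := fun y =>
    if hy : ∃ p : Fin n × Fin n, ∃ h : F.Adj p.1 p.2, (⟨P p.1 p.2, hcr _ _ h⟩ : D.crossings) = y then
      some (xor (c _ _ hy.choose_spec.choose).2.2 (c _ _ hy.choose_spec.choose.symm).2.2)
    else none with hω
  have hωx : ∀ a b, ∀ h : F.Adj a b,
      ω ⟨P a b, hcr a b h⟩ = some (xor (c a b h).2.2 (c b a h.symm).2.2) := by
    intro a b h
    have hy : ∃ p : Fin n × Fin n, ∃ h' : F.Adj p.1 p.2,
        (⟨P p.1 p.2, hcr _ _ h'⟩ : D.crossings) = ⟨P a b, hcr a b h⟩ := ⟨(a, b), h, rfl⟩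
    have e : hy.choose = (a, b) ∨ hy.choose = (b, a) := by
      have h1 := hy.choose_spec.choose_spec
      have h2 := congrArg Subtype.val h1
      exact hPinj a b h hy.choose.1 hy.choose.2 hy.choose_spec.choose h2
    simp only [hω]
    rw [dif_pos hy]
    congr 1
    have gen : ∀ p : Fin n × Fin n, ∀ hp : F.Adj p.1 p.2, p = (a, b) ∨ p = (b, a) →
        xor (c _ _ hp).2.2 (c _ _ hp.symm).2.2 = xor (c a b h).2.2 (c b a h.symm).2.2 := by
      intro p hp hpp
      rcases hpp with rfl | rfl
      · rfl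
      · exact Bool.xor_comm _ _
    exact gen hy.choose hy.choose_spec.choose e
  have hωn : ∀ y : D.crossings, (∀ u v, F.Adj u v → y.1 ≠ P u v) → ω y = none := by
    intro y hy
    simp only [hω]
    rw [dif_neg]
    rintro ⟨p, hp, hk⟩
    exact hy p.1 p.2 hp (congrArg Subtype.val hk).symm
  have hmate : ∀ a b, ∀ h : F.Adj a b, mate ω (c a b h) = c b a h.symm := by
    intro a b h
    have h1 := hωx a b h
    rw [← hc1 a b h] at h1
    rw [c01_mate_some h1]
    have h2 : (c b a h.symm) = ((c b a h.symm).1, (c b a h.symm).2.1, (c b a h.symm).2.2) := rfl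
    have h3 : (c b a h.symm).1 = (c a b h).1 := by
      rw [hc1, hc1]
      exact Subtype.ext (hsym b a)
    rw [h2, hstrand a b h, h3]
    congr 2
    cases (c a b h).2.2 <;> cases (c b a h.symm).2.2 <;> rfl
  refine ⟨ω, ?_, ?_⟩
  · intro i j hij
    by_cases hF : F.Adj i j
    · obtain ⟨l'', t⟩ := h01_trail E (hc3 i j hF) (hc3 j i hF.symm) (fun f hf => hωn _ (hc4 i j hF f hf))
        (fun f hf => hωn _ (hc4 j i hF.symm f hf)) (hmate i j hF)
      exact ⟨_, _, _, rfl, rfl, t⟩
    · obtain ⟨l0, t, ht⟩ := E.walk_vertex ⟨(i, j), hij⟩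
      refine ⟨⟨(i, j), hij⟩, l0, VD.rev ⟨(i, j), hij⟩, rfl, rfl, ?_⟩
      refine walk_congr (fun f hf => ?_) t
      change none = ω f.1
      symm
      apply hωn
      intro u v huv hm
      have h1 := ht f hf
      rw [hm] at h1
      change P u v ∈ D.edge i j at h1
      rcases hthree u v huv i j hij h1 with ⟨e1, e2⟩ | ⟨e1, e2⟩ | ⟨e1, e2⟩ | ⟨e1, e2⟩
      · exact hF (by rw [e1, e2]; exact hσ u v huv)
      · exact hF (by rw [e1, e2]; exact (hσ u v huv).symm)
      · exact hF (by rw [e1, e2]; exact hσ v u huv.symm)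
      · exact hF (by rw [e1, e2]; exact (hσ v u huv.symm).symm)
  · have hfin : Finite D.crossings := (crossings_finite D).to_subtype
    -- the smoothed crossings
    have hpt : ∀ e : F.edgeSet, ∃ y : D.crossings, ω y ≠ none ∧
        ∀ a b, e.1 = s(a, b) → y.1 = P a b := by
      rintro ⟨e, he⟩
      induction e using Sym2.ind with
      | _ a b =>
        have hab : F.Adj a b := he
        refine ⟨⟨P a b, hcr a b hab⟩, ?_, ?_⟩
        · rw [hωx a b hab]
          simp
        · intro a' b' h'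
          rcases Sym2.eq_iff.1 h' with ⟨rfl, rfl⟩ | ⟨rfl, rfl⟩
          · rfl
          · exact hsym _ _
    choose y hy1 hy2 using hpt
    have hyi : Function.Injective y := by
      rintro ⟨e, he⟩ ⟨e', he'⟩ hee
      induction e using Sym2.ind with
      | _ a b =>
        induction e' using Sym2.ind with
        | _ a' b' =>
          have h1 := hy2 ⟨s(a, b), he⟩ a b rfl
          have h2 := hy2 ⟨s(a', b'), he'⟩ a' b' rfl
          rw [hee] at h1
          have h3 : P a' b' = P a b := by rw [← h2, ← h1]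
          have hab : F.Adj a b := he
          have hab' : F.Adj a' b' := he'
          apply Subtype.ext
          rcases hPinj a b hab a' b' hab' h3 with h | h
          · rw [Prod.mk.injEq] at h
            obtain ⟨rfl, rfl⟩ := h
            rfl
          · rw [Prod.mk.injEq] at h
            obtain ⟨rfl, rfl⟩ := h
            exact Sym2.eq_swap
    have hs : strt ω ⊆ (range y)ᶜ := by
      rintro z hz ⟨e, rfl⟩
      exact hy1 e hz
    have h1 : (strt ω).ncard ≤ ((range y)ᶜ).ncard := Set.ncard_le_ncard hs (Set.toFinite _)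
    have h2 := Set.ncard_add_ncard_compl (range y)
    have h3 : (range y).ncard = F.edgeSet.ncard := by
      rw [← Set.image_univ, Set.ncard_image_of_injective _ hyi, Set.ncard_univ,
        Nat.card_coe_set_eq]
    have h4 : D.cr = Nat.card D.crossings := by
      unfold Drawing.cr
      rw [Nat.card_coe_set_eq]
    omega

/-- **Theorem.** A drawing of `K_n` with a twisted subgraph `F` has at least `|F|` crossings more than some other
drawing. -/
theorem twisted_subgraph [T2Space S] (D : Drawing S n) {F : SimpleGraph (Fin n)} (hh : D.Twisted F) :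
    ∃ D' : Drawing S n, D'.cr + F.edgeSet.ncard ≤ D.cr := by
  have hfin : Finite D.crossings := (crossings_finite D).to_subtype
  obtain ⟨G⟩ := exists_geo D
  obtain ⟨M⟩ := exists_lineNet G.L
  obtain ⟨T, hT⟩ := exists_topNet G M
  obtain ⟨E, hE⟩ := exists_edgeNet G M
  obtain ⟨ω, hK, hω⟩ := tw_state E hh
  rw [hE, ← hT] at hK
  obtain ⟨ω', hG, hle⟩ := exists_good hK
  obtain ⟨D', hD'⟩ := realise T hG
  exact ⟨D', by omega⟩

end Pool.HexDraw
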